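import Pool.Agent.H82R2.Dim.Square

/-!
# The same self-similar group acting on the tree of the levels `0, a, 2a, ...`
-/

set_option autoImplicit false

namespace Pool.Agent.Y926.HD

open Pool.Agent.H82R2.Dim

variable {Q A : Type}

/-- the state after reading a word -/
def run (M : Mealy Q A) : Q → List A → Q
  | q, [] => q
  | q, x :: w => run M (M.nxt q x) w

theorem act_append (M : Mealy Q A) (q : Q) (u v : List A) :
    M.act q (u ++ v) = M.act q u ++ M.act (run M q u) v := by
  induction u generalizing q with
  | nil => rfl
  | cons x u ih =>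
    change M.out q x :: M.act (M.nxt q x) (u ++ v) = M.out q x :: (M.act (M.nxt q x) u ++ _)
    rw [ih]
    rfl

theorem act_length (M : Mealy Q A) (q : Q) (w : List A) : (M.act q w).length = w.length := by
  induction w generalizing q with
  | nil => rfl
  | cons x w ih =>
    change (M.act (M.nxt q x) w).length + 1 = w.length + 1
    rw [ih]

theorem actInv_length (M : Mealy Q A) (q : Q) (w : List A) :
    (M.actInv q w).length = w.length := by
  induction w generalizing q with
  | nil => rfl
  | cons x w ih =>
    change (M.actInv (M.nxt q ((M.out q).symm x)) w).length + 1 = w.length + 1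
    rw [ih]

/-- The letters of the new tree are the words of length `a`. -/
def blocks (M : Mealy Q A) (a : ℕ) : Mealy Q (List.Vector A a) where
  out q :=
    { toFun := fun w => ⟨M.act q w.1, by rw [act_length, w.2]⟩
      invFun := fun w => ⟨M.actInv q w.1, by rw [actInv_length, w.2]⟩
      left_inv := fun w => Subtype.ext ((M.perm q).left_inv w.1)
      right_inv := fun w => Subtype.ext ((M.perm q).right_inv w.1) }
  nxt q w := run M q w.1

/-- concatenation -/
def fl {a : ℕ} : List (List.Vector A a) → List A
  | [] => []
  | x :: w => x.1 ++ fl w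

theorem fl_length {a : ℕ} (w : List (List.Vector A a)) : (fl w).length = a * w.length := by
  induction w with
  | nil => rfl
  | cons x w ih =>
    rw [fl, List.length_append, ih, x.2, List.length_cons]
    ring

theorem fl_injective {a : ℕ} (ha : 1 ≤ a) :
    Function.Injective (fl : List (List.Vector A a) → List A) := by
  intro v w h
  have hl := congrArg List.length h
  rw [fl_length, fl_length] at hl
  have hl' : v.length = w.length := Nat.eq_of_mul_eq_mul_left ha hl
  clear hl
  induction v generalizing w with
  | nil => exact (List.length_eq_zero_iff.1 hl'.symm).symm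
  | cons x v ih =>
    cases w with
    | nil => simp at hl'
    | cons y w =>
      rw [fl, fl] at h
      obtain ⟨h1, h2⟩ := List.append_inj h (by rw [x.2, y.2])
      rw [Subtype.ext h1, ih h2 (by simpa using hl')]

theorem exists_fl {a : ℕ} (n : ℕ) (w : List A) (hw : w.length = a * n) :
    ∃ v : List (List.Vector A a), v.length = n ∧ fl v = w := by
  induction n generalizing w with
  | zero => exact ⟨[], rfl, (List.length_eq_zero_iff.1 (by simpa using hw)).symm⟩
  | succ n ih =>
    have h1 : a ≤ w.length := by rw [hw]; exact Nat.le_mul_of_pos_right _ (Nat.succ_pos n)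
    obtain ⟨v, hv, hv'⟩ := ih (w.drop a) (by rw [List.length_drop, hw, Nat.mul_succ]; omega)
    let x : List.Vector A a := ⟨w.take a, by rw [List.length_take]; omega⟩
    refine ⟨x :: v, by rw [List.length_cons, hv], ?_⟩
    change w.take a ++ fl v = w
    rw [hv', List.take_append_drop]

theorem blocks_act {a : ℕ} (M : Mealy Q A) (q : Q) (w : List (List.Vector A a)) :
    fl ((blocks M a).act q w) = M.act q (fl w) := by
  induction w generalizing q with
  | nil => rfl
  | cons x w ih =>
    change M.act q x.1 ++ fl ((blocks M a).act (run M q x.1) w) = M.act q (x.1 ++ fl w)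
    rw [ih, act_append]

theorem blocks_rep {a : ℕ} (M : Mealy Q A) (u : FreeGroup Q) (w : List (List.Vector A a)) :
    fl ((blocks M a).rep u w) = M.rep u (fl w) := by
  induction u using FreeGroup.induction_on generalizing w with
  | C1 => rw [map_one, map_one]; rfl
  | of q =>
    simp only [Mealy.rep, FreeGroup.lift_apply_of]
    exact blocks_act M q w
  | inv_of q ih =>
    have h1 := ih ((blocks M a).rep (FreeGroup.of q)⁻¹ w)
    rw [map_inv, map_inv] at *
    have h2 : ((blocks M a).rep (FreeGroup.of q)) (((blocks M a).rep (FreeGroup.of q))⁻¹ w) = w := by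
      rw [← Equiv.Perm.mul_apply, mul_inv_cancel]; rfl
    rw [h2] at h1
    rw [h1, ← Equiv.Perm.mul_apply, inv_mul_cancel]; rfl
  | mul u v hu hv =>
    rw [map_mul, map_mul, Equiv.Perm.mul_apply, Equiv.Perm.mul_apply, hu, hv]

theorem levelCard_blocks {a : ℕ} (ha : 1 ≤ a) (M : Mealy Q A) (n : ℕ) :
    (blocks M a).levelCard n = M.levelCard (a * n) := by
  rw [levelCard_eq_index, levelCard_eq_index]
  congr 1
  ext u
  constructor
  · intro h w hw
    obtain ⟨v, hv, rfl⟩ := exists_fl n w hw
    have := h v hv
    rw [← blocks_rep, this]
  · intro h v hv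
    apply fl_injective ha
    rw [blocks_rep]
    exact h _ (by rw [fl_length, hv])

end Pool.Agent.Y926.HD
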