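import Pool.Agent.Results.MP_b868f5_al.IrrationalDimension
import Pool.Agent.Y926.HD.Blocks

/-!
# Hausdorff dimensions on the trees with `66 ^ a` letters
-/

set_option autoImplicit false

namespace Pool.Agent.Y926.HD

open Pool.Agent.H82R2.Dim Filter
open Pool.Agent.Results.MP_b868f5_al.IrrationalDimension

/-- the words of length `a` as letters -/
noncomputable def lettersA (a : ℕ) : List.Vector (Fin 66) a ≃ Fin (66 ^ a) :=
  Fintype.equivFinOfCardEq (by rw [card_vector, Fintype.card_fin])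

/-- the group of the automaton `M66`, acting on the tree of the levels `0, a, 2a, ...` -/
noncomputable def MA (a : ℕ) : Mealy Q (Fin (66 ^ a)) := (blocks M66 a).transport (lettersA a)

theorem levelCard_MA {a : ℕ} (ha : 1 ≤ a) (n : ℕ) : (MA a).levelCard n = M66.levelCard (a * n) := by
  unfold MA
  rw [levelCard_transport, levelCard_blocks ha]

theorem tendsto_MA {a : ℕ} (ha : 1 ≤ a) {S : ℝ}
    (h : Tendsto (fun n : ℕ => Real.logb 2 (M66.levelCard n) / 66 ^ n) atTop (nhds S)) :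
    Tendsto (fun n : ℕ => Real.logb 2 ((MA a).levelCard n) / ((66 ^ a : ℕ) : ℝ) ^ n)
      atTop (nhds S) := by
  have h2 : Tendsto (fun n : ℕ => a * n) atTop atTop :=
    tendsto_id.const_mul_atTop' ha
  have := h.comp h2
  refine this.congr (fun n => ?_)
  simp only [Function.comp]
  rw [levelCard_MA ha, pow_mul]
  push_cast
  rfl

theorem hdim_MA {a : ℕ} (ha : 1 ≤ a) {S : ℝ}
    (h : Tendsto (fun n : ℕ => Real.logb 2 (M66.levelCard n) / 66 ^ n) atTop (nhds S)) :
    (MA a).hdim = (((66 ^ a : ℕ) : ℝ) - 1) * Real.log 2 / Real.log (Nat.factorial (66 ^ a)) * S := by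
  have hc : Fintype.card (Fin (66 ^ a)) = 66 ^ a := Fintype.card_fin _
  have h2 : 2 ≤ 66 ^ a := le_trans (by norm_num) (Nat.pow_le_pow_right (by norm_num : 1 ≤ 66) ha)
  have := hdim_eq (MA a) (S := S) (by rw [hc]; exact h2) (by rw [hc]; exact tendsto_MA ha h)
  rw [hc] at this
  exact this

theorem log_fact_pos {m : ℕ} (hm : 2 ≤ m) : 0 < Real.log (Nat.factorial m) := by
  apply Real.log_pos
  have : 1 < Nat.factorial m := lt_of_lt_of_le (by omega) (Nat.self_le_factorial _)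
  exact_mod_cast this

/-- `log m'!` is not a rational multiple of `log m!` if `m' ≥ 2 m`. -/
theorem not_rat' {m m' : ℕ} (hm : 2 ≤ m) (hmm : 2 * m ≤ m') :
    Irrational (Real.log (Nat.factorial m') / Real.log (Nat.factorial m)) := by
  rintro ⟨r, h⟩
  have hl1 : 0 < Real.log (Nat.factorial m) := log_fact_pos hm
  have hl2 : 0 < Real.log (Nat.factorial m') := log_fact_pos (by omega)
  have hr : (0 : ℝ) < (r : ℝ) := by rw [h]; exact div_pos hl2 hl1
  have hr' : (0 : ℚ) < r := by exact_mod_cast hr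
  have hnum : 0 < r.num := Rat.num_pos.2 hr'
  obtain ⟨p, hp⟩ : ∃ p : ℕ, (p : ℤ) = r.num := ⟨r.num.toNat, Int.toNat_of_nonneg hnum.le⟩
  have hden : (0 : ℝ) < (r.den : ℝ) := by exact_mod_cast r.den_pos
  have e : (r : ℝ) = (p : ℝ) / (r.den : ℝ) := by
    have : (r : ℝ) = (r.num : ℝ) / (r.den : ℝ) := by exact_mod_cast (Rat.num_div_den r).symm
    rw [this, ← hp]
    push_cast
    rfl
  have e2 : (r.den : ℝ) * Real.log (Nat.factorial m') =
      (p : ℝ) * Real.log (Nat.factorial m) := by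
    rw [e] at h
    rw [div_eq_div_iff hden.ne' hl1.ne'] at h
    linarith
  rw [← Real.log_pow, ← Real.log_pow] at e2
  have f1 : (0 : ℝ) < (Nat.factorial m' : ℝ) := by exact_mod_cast Nat.factorial_pos m'
  have f2 : (0 : ℝ) < (Nat.factorial m : ℝ) := by exact_mod_cast Nat.factorial_pos m
  have e3 : ((Nat.factorial m' : ℝ)) ^ r.den = (Nat.factorial m : ℝ) ^ p :=
    Real.log_injOn_pos (Set.mem_Ioi.2 (by positivity)) (Set.mem_Ioi.2 (by positivity)) e2
  have e4 : (Nat.factorial m') ^ r.den = (Nat.factorial m) ^ p := by exact_mod_cast e3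
  obtain ⟨l, hl, hl1, hl2⟩ := Nat.exists_prime_lt_and_le_two_mul m (by omega)
  have d1 : l ∣ (Nat.factorial m') ^ r.den :=
    dvd_pow ((hl.dvd_factorial).2 (by omega)) r.den_pos.ne'
  rw [e4] at d1
  have d2 := hl.dvd_of_dvd_pow d1
  have d3 := (hl.dvd_factorial).1 d2
  omega

theorem two_mul_le {a b : ℕ} (h : a < b) : 2 * 66 ^ a ≤ 66 ^ b := by
  have h1 : 66 ^ (a + 1) ≤ 66 ^ b := Nat.pow_le_pow_right (by norm_num) h
  rw [pow_succ] at h1
  omega

theorem two_le_pow {a : ℕ} (ha : 1 ≤ a) : 2 ≤ 66 ^ a :=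
  le_trans (by norm_num) (Nat.pow_le_pow_right (by norm_num : 1 ≤ 66) ha)

/-- The quotients of the dimensions are irrational. -/
theorem ratio_irr {S : ℝ} (hS : Irrational S)
    (h : Tendsto (fun n : ℕ => Real.logb 2 (M66.levelCard n) / 66 ^ n) atTop (nhds S))
    {a b : ℕ} (ha : 1 ≤ a) (hab : a < b) : Irrational ((MA a).hdim / (MA b).hdim) := by
  have hb : 1 ≤ b := by omega
  rw [hdim_MA ha h, hdim_MA hb h]
  have key := not_rat' (two_le_pow ha) (two_mul_le hab)
  have hl2 : 0 < Real.log 2 := Real.log_pos (by norm_num)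
  have la := log_fact_pos (two_le_pow ha)
  have lb := log_fact_pos (two_le_pow hb)
  have hS0 : S ≠ 0 := hS.ne_zero
  have ea : (0 : ℝ) < ((66 ^ a : ℕ) : ℝ) - 1 := by
    have : (2 : ℝ) ≤ ((66 ^ a : ℕ) : ℝ) := by exact_mod_cast two_le_pow ha
    linarith
  have eb : (0 : ℝ) < ((66 ^ b : ℕ) : ℝ) - 1 := by
    have : (2 : ℝ) ≤ ((66 ^ b : ℕ) : ℝ) := by exact_mod_cast two_le_pow hb
    linarith
  have e : (((66 ^ a : ℕ) : ℝ) - 1) * Real.log 2 / Real.log (Nat.factorial (66 ^ a)) * S /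
      ((((66 ^ b : ℕ) : ℝ) - 1) * Real.log 2 / Real.log (Nat.factorial (66 ^ b)) * S) =
      (((((66 ^ a : ℕ) : ℚ) - 1) / (((66 ^ b : ℕ) : ℚ) - 1) : ℚ) : ℝ) *
        (Real.log (Nat.factorial (66 ^ b)) / Real.log (Nat.factorial (66 ^ a))) := by
    rw [Rat.cast_div, Rat.cast_sub, Rat.cast_sub, Rat.cast_natCast, Rat.cast_natCast, Rat.cast_one]
    field_simp
  rw [e]
  apply key.ratCast_mul
  have ea' : (0 : ℚ) < ((66 ^ a : ℕ) : ℚ) - 1 := by exact_mod_cast ea
  have eb' : (0 : ℚ) < ((66 ^ b : ℕ) : ℚ) - 1 := by exact_mod_cast eb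
  exact (div_pos ea' eb').ne'

end Pool.Agent.Y926.HD
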